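import Mathlib
import Pool.Agent.Q262.RL.Key5

/-!
# The simultaneous Lehmer problem in fields with a large subfield

Let `x_1, …, x_n` be algebraic integers, none of them zero or a root of unity (for instance
multiplicatively independent ones). Let `K` be an extension of degree at most `C` of
`ℚ(x_1, …, x_n)` which contains a number field `F` such that, for a prime number `p` and a power `q` of
`p`, there is an automorphism `τ` of `F` with `x ^ q ≡ τ x` modulo `P` for all the integers `x` of `F`
and all the prime ideals `P` above `p`, and such that the ramification indices of `F` above `p` are at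
most `E`. If `[K : F] ^ (k (n - 1) + 1) ≤ C [F : ℚ] ^ k` then
`h(x_1) ⋯ h(x_n) ≥ c / [ℚ(x_1, …, x_n) : ℚ]`, where `c > 0` depends on `n`, `p`, `q`, `E`, `C`, `k`
only. (For `n = 1` this is `[K : F] ≤ C [F : ℚ] ^ k`; for `n ≥ 2` the degree of `K` over `F` must be
smaller than `[F : ℚ]` to the power `1 / (n - 1)`, up to `ε`.)
-/

set_option autoImplicit false

open NumberField Module

namespace Pool.Agent.Results.MP_8298ec_nt.LargeSubfields

/-- The number field `F` has an automorphism `τ` and a set `T` of prime ideals above `p` with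
`x ^ q ≡ τ x` modulo `P` for all the integers `x` of `F` and all `P` in `T`, such that the sum of the
local degrees (products of ramification index and residue degree) of the members of `T` is at least
`[F : ℚ] / B`. (For `B = 1` this means that all the prime ideals above `p` are in `T`.) -/
def HasFrobenius (p q B : ℕ) (F : Type) [Field F] [NumberField F] : Prop :=
  ∃ (τ : F ≃+* F) (T : Finset (Ideal (𝓞 F))),
    (∀ P ∈ T, P ∈ (Ideal.span {(p : ℤ)}).primesOver (𝓞 F) ∧
      ∀ x : 𝓞 F, x ^ q - RingOfIntegers.mapRingHom (τ : F →+* F) x ∈ P) ∧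
    finrank ℚ F ≤ B * ∑ P ∈ T, P.ramificationIdx ℤ * P.inertiaDeg ℤ

/-- All the ramification indices of `F` above `p` are at most `E`. -/
def RamificationAtMost (p E : ℕ) (F : Type) [Field F] [NumberField F] : Prop :=
  ∀ P ∈ (Ideal.span {(p : ℤ)}).primesOver (𝓞 F), P.ramificationIdx ℤ ≤ E

/-- `x` is neither zero nor a root of unity. -/
def IsWandering {M : Type} [Field M] [NumberField M] (x : 𝓞 M) : Prop :=
  x ≠ 0 ∧ ∀ m : ℕ, 0 < m → x ^ m ≠ 1

/-- The `x_i` are multiplicatively independent (and not zero). -/
def Independent {n : ℕ} {K : Type} [Field K] [NumberField K] (x : Fin n → 𝓞 K) : Prop :=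
  (∀ i, x i ≠ 0) ∧ ∀ m : Fin n → ℤ, ∏ i, (x i : K) ^ m i = 1 → m = 0

/-- The absolute logarithmic Weil height of the algebraic integer `x`: the mean of the `log⁺ |σ x|`
over the embeddings `σ` of a number field which contains `x`. -/
noncomputable def height {M : Type} [Field M] [NumberField M] (x : 𝓞 M) : ℝ :=
  (∑ σ : M →+* ℂ, Real.log (max 1 ‖σ (x : M)‖)) / finrank ℚ M

/-- `10 p ^ (2 e + 1) E exp (√(3 e log p log D)) / log p` -/
noncomputable def cost (p e E D : ℕ) : ℝ :=
  10 * (p : ℝ) ^ (2 * e + 1) * E * Real.exp (√(3 * (e * Real.log p) * Real.log D)) / Real.log p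

/-- the height and the sum over the embeddings -/
lemma height_lam (M : Type) [Field M] [NumberField M] (x : 𝓞 M) :
    height x * finrank ℚ M = Pool.Agent.H388SL.lam (x : M) := by
  have h0 : (0 : ℝ) < finrank ℚ M := by exact_mod_cast (finrank_pos : 0 < finrank ℚ M)
  unfold height
  rw [div_mul_cancel₀ _ h0.ne', Pool.Agent.Q191.MV.lam_eq]

lemma height_nonneg {M : Type} [Field M] [NumberField M] (x : 𝓞 M) : 0 ≤ height x := by
  unfold height
  exact div_nonneg (Finset.sum_nonneg fun σ _ => Real.log_nonneg (le_max_left _ _))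
    (Nat.cast_nonneg _)

/-- the relative inequality -/
lemma relative {p e E : ℕ} (hp : p.Prime) (he : 0 < e) {F K : Type} [Field F] [NumberField F]
    [Field K] [NumberField K] [Algebra F K] (x : 𝓞 K) (hx : IsWandering x)
    (hF : HasFrobenius p (p ^ e) 1 F) (hE : RamificationAtMost p E F) :
    1 ≤ cost p e E (finrank F K) * finrank F K * height x := by
  haveI : FiniteDimensional F K := FiniteDimensional.right ℚ F K
  have hx0 : (x : K) ≠ 0 := fun h => hx.1 (RingOfIntegers.coe_eq_zero_iff.1 h)
  have hxr : ∀ j : ℕ, 0 < j → (x : K) ^ j ≠ 1 := by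
    intro j hj h
    exact hx.2 j hj (RingOfIntegers.ext (by simpa using h))
  have h1 := Pool.Agent.Q262.RL.ram_bound hp he (Pool.Agent.Q262.RL.all_of_mass hp hF) hE
    (x : K) hx0 x.isIntegral_coe hxr
  rw [← height_lam K x] at h1
  have hF0 : (0 : ℝ) < finrank ℚ F := by exact_mod_cast (finrank_pos : 0 < finrank ℚ F)
  have htow : (finrank ℚ K : ℝ) = finrank ℚ F * finrank F K := by
    exact_mod_cast (Module.finrank_mul_finrank ℚ F K).symm
  rw [htow] at h1
  have h2 : (finrank ℚ F : ℝ) * 1 ≤
      finrank ℚ F * (cost p e E (finrank F K) * finrank F K * height x) := by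
    rw [mul_one]
    refine h1.trans (le_of_eq ?_)
    unfold cost Pool.Agent.Q262.RL.rcost
    ring
  exact le_of_mul_le_mul_left h2 hF0

/-- the elementary estimate -/
lemma estimate (c W : ℝ) (hc : 0 ≤ c) (hW : 0 < W) (n k C D N : ℕ) (hn : 0 < n) (hk : 0 < k)
    (hC : 0 < C) (hD : 0 < D) (hN : 0 < N) (h : D ^ (k * (n - 1) + 1) ≤ C * N ^ k) :
    (W * Real.exp (√(c * Real.log D)) * D) ^ n ≤
      W ^ n * Real.exp (c * n ^ 2 * k / 2) * C * (N * D) := by
  have hC' : (1 : ℝ) ≤ C := by exact_mod_cast hC
  have hD' : (1 : ℝ) ≤ D := by exact_mod_cast hD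
  have hN' : (1 : ℝ) ≤ N := by exact_mod_cast hN
  have hk' : (1 : ℝ) ≤ k := by exact_mod_cast hk
  have hn' : (1 : ℝ) ≤ n := by exact_mod_cast hn
  set L : ℝ := Real.log D with hL
  have hL0 : 0 ≤ L := Real.log_nonneg hD'
  have hlC : 0 ≤ Real.log C := Real.log_nonneg hC'
  have hlN : 0 ≤ Real.log N := Real.log_nonneg hN'
  -- the condition
  have h1 : (k * (n - 1) + 1) * L ≤ Real.log C + k * Real.log N := by
    have h2 : ((D : ℝ) ^ (k * (n - 1) + 1)) ≤ C * (N : ℝ) ^ k := by exact_mod_cast h
    have h3 := Real.log_le_log (by positivity) h2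
    rw [Real.log_pow, Real.log_mul (by positivity) (by positivity), Real.log_pow] at h3
    have h4 : ((k * (n - 1) + 1 : ℕ) : ℝ) = k * (n - 1) + 1 := by
      push_cast [Nat.cast_sub hn]
      ring
    rwa [h4] at h3
  have h2 : (n - 1) * L + L / k ≤ Real.log C + Real.log N := by
    have h3 : (n - 1) * L + L / k = ((k * (n - 1) + 1) * L) / k := by
      field_simp
    rw [h3, div_le_iff₀ (by linarith)]
    refine h1.trans ?_
    nlinarith [mul_nonneg hlC (sub_nonneg.2 hk')]
  have h4 : n * √(c * L) ≤ c * n ^ 2 * k / 2 + L / k := by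
    have h5 : √(c * L) ≤ c * (n * k) / 2 + L / (2 * (n * k)) := by
      rw [Real.sqrt_le_left (by positivity)]
      have h3 : (c * (n * k) / 2 + L / (2 * (n * k))) ^ 2 - c * L =
          (c * (n * k) / 2 - L / (2 * (n * k))) ^ 2 := by
        field_simp
        ring
      have h4 := sq_nonneg (c * (n * k) / 2 - L / (2 * (n * k)) : ℝ)
      linarith
    calc n * √(c * L) ≤ n * (c * (n * k) / 2 + L / (2 * (n * k))) :=
          mul_le_mul_of_nonneg_left h5 (by positivity)
      _ = c * n ^ 2 * k / 2 + L / k / 2 := by
        field_simp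
      _ ≤ c * n ^ 2 * k / 2 + L / k := by
        have : 0 ≤ L / k := by positivity
        linarith
  have h6 : Real.log ((W * Real.exp (√(c * L)) * D) ^ n) ≤
      Real.log (W ^ n * Real.exp (c * n ^ 2 * k / 2) * C * (N * D)) := by
    rw [Real.log_pow, Real.log_mul (by positivity) (by positivity),
      Real.log_mul (by positivity) (by positivity), Real.log_exp,
      Real.log_mul (by positivity) (by positivity), Real.log_mul (by positivity) (by positivity),
      Real.log_mul (by positivity) (by positivity), Real.log_exp, Real.log_pow,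
      Real.log_mul (by positivity) (by positivity), ← hL]
    nlinarith
  exact (Real.log_le_log_iff (by positivity) (by positivity)).1 h6

/-- **The simultaneous Lehmer problem in fields with a large subfield.**

1. For all `n > 0`, every prime number `p`, all `e > 0`, `E`, `C` and `k > 0` there is `c > 0` such that
   `h(x_1) ⋯ h(x_n) ≥ c / [ℚ(x_1, …, x_n) : ℚ]` for all algebraic integers `x_i`, neither zero nor roots
   of unity, of a number field `K` of degree at most `C [ℚ(x_1, …, x_n) : ℚ]` that contains a number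
   field `F` with `HasFrobenius p (p ^ e) 1 F`, with ramification indices above `p` at most `E`, and
   with `[K : F] ^ (k (n - 1) + 1) ≤ C [F : ℚ] ^ k`.
2. Without the last condition (and the condition on the degree of `K`),
   `1 ≤ (cost(p, e, E, D) D) ^ n h(x_1) ⋯ h(x_n)`, `D = [K : F]`.
3. Multiplicatively independent `x_i` are neither zero nor roots of unity.
4. If there is a set of prime ideals of `F` above `p`, of residue degrees at most `f`, whose local
   degrees have a sum of at least `[F : ℚ] / B`, then `HasFrobenius p (p ^ f !) B F`. -/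
theorem result :
    (∀ (n p e E C k : ℕ), 0 < n → p.Prime → 0 < e → 0 < k → ∃ c : ℝ, 0 < c ∧
      ∀ (F K : Type) [Field F] [NumberField F] [Field K] [NumberField K] [Algebra F K]
        (x : Fin n → 𝓞 K), (∀ i, IsWandering (x i)) →
        finrank ℚ K ≤ C * finrank ℚ (IntermediateField.adjoin ℚ (Set.range fun i => (x i : K))) →
        HasFrobenius p (p ^ e) 1 F → RamificationAtMost p E F →
        finrank F K ^ (k * (n - 1) + 1) ≤ C * finrank ℚ F ^ k →
        c / finrank ℚ (IntermediateField.adjoin ℚ (Set.range fun i => (x i : K))) ≤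
          ∏ i, height (x i)) ∧
    (∀ (n p e E : ℕ), p.Prime → 0 < e →
      ∀ (F K : Type) [Field F] [NumberField F] [Field K] [NumberField K] [Algebra F K]
        (x : Fin n → 𝓞 K), (∀ i, IsWandering (x i)) →
        HasFrobenius p (p ^ e) 1 F → RamificationAtMost p E F →
        1 ≤ (cost p e E (finrank F K) * finrank F K) ^ n * ∏ i, height (x i)) ∧
    (∀ (n : ℕ) (K : Type) [Field K] [NumberField K] (x : Fin n → 𝓞 K),
      Independent x → ∀ i, IsWandering (x i)) ∧
    (∀ (F : Type) [Field F] [NumberField F] (p f B : ℕ), p.Prime → ∀ T : Finset (Ideal (𝓞 F)),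
      (∀ P ∈ T, P ∈ (Ideal.span {(p : ℤ)}).primesOver (𝓞 F) ∧ P.inertiaDeg ℤ ≤ f) →
      finrank ℚ F ≤ B * ∑ P ∈ T, P.ramificationIdx ℤ * P.inertiaDeg ℤ →
      HasFrobenius p (p ^ f.factorial) B F) := by
  have hprod : ∀ (n p e E : ℕ), p.Prime → 0 < e →
      ∀ (F K : Type) [Field F] [NumberField F] [Field K] [NumberField K] [Algebra F K]
        (x : Fin n → 𝓞 K), (∀ i, IsWandering (x i)) →
        HasFrobenius p (p ^ e) 1 F → RamificationAtMost p E F →
        1 ≤ (cost p e E (finrank F K) * finrank F K) ^ n * ∏ i, height (x i) := by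
    intro n p e E hp he F K _ _ _ _ _ x hx hF hE
    have h1 := Finset.prod_le_prod (s := Finset.univ) (f := fun _ : Fin n => (1 : ℝ))
      (g := fun i => cost p e E (finrank F K) * finrank F K * height (x i))
      (fun _ _ => zero_le_one) (fun i _ => relative hp he (x i) (hx i) hF hE)
    rw [Finset.prod_const_one, Finset.prod_mul_distrib, Finset.prod_const, Finset.card_univ,
      Fintype.card_fin] at h1
    exact h1
  refine ⟨?_, hprod, ?_, ?_⟩
  · intro n p e E C k hn hp he hk
    set W : ℝ := 10 * (p : ℝ) ^ (2 * e + 1) * E / Real.log p with hW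
    set c0 : ℝ := 3 * (e * Real.log p) with hc0
    have hp1 : (1 : ℝ) < p := by exact_mod_cast hp.one_lt
    have hlp : 0 < Real.log p := Real.log_pos hp1
    have hc0' : 0 ≤ c0 := by positivity
    have hW0 : 0 ≤ W := by positivity
    set A : ℝ := W ^ n * Real.exp (c0 * n ^ 2 * k / 2) * C with hA
    have hA0 : 0 ≤ A := by positivity
    have hAC : 0 < A * C + 1 := by positivity
    refine ⟨1 / (A * C + 1), by positivity, ?_⟩
    intro F K _ _ _ _ _ x hx hKC hF hE hD
    haveI : FiniteDimensional F K := FiniteDimensional.right ℚ F K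
    have hE1 : 0 < E := Pool.Agent.Q262.RL.ramPos hp hE
    have hK0 : 0 < finrank ℚ K := finrank_pos
    have hN0 : 0 < finrank ℚ F := finrank_pos
    have hD0 : 0 < finrank F K := finrank_pos
    set d := finrank ℚ (IntermediateField.adjoin ℚ (Set.range fun i => (x i : K))) with hd
    have hC0 : 0 < C := by
      rcases Nat.eq_zero_or_pos C with h0 | h0
      · rw [h0, zero_mul] at hKC
        omega
      · exact h0
    have hd0 : 0 < d := by
      rcases Nat.eq_zero_or_pos d with h0 | h0
      · rw [h0, mul_zero] at hKC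
        omega
      · exact h0
    have hd0' : (0 : ℝ) < d := by exact_mod_cast hd0
    have hE1' : (0 : ℝ) < E := by exact_mod_cast hE1
    have hWpos : 0 < W := by positivity
    have h1 := estimate c0 W hc0' hWpos n k C (finrank F K) (finrank ℚ F) hn hk hC0 hD0 hN0 hD
    have hG : cost p e E (finrank F K) * finrank F K =
        W * Real.exp (√(c0 * Real.log (finrank F K))) * finrank F K := by
      unfold cost
      rw [hW, hc0]
      ring
    have h2 := hprod n p e E hp he F K x hx hF hE
    rw [hG] at h2
    set G := W * Real.exp (√(c0 * Real.log (finrank F K))) * finrank F K with hGdef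
    have hD0' : (0 : ℝ) < finrank F K := by exact_mod_cast hD0
    have hGpos : 0 < G := by positivity
    have htow : ((finrank ℚ F : ℝ) * finrank F K) = finrank ℚ K := by
      exact_mod_cast Module.finrank_mul_finrank ℚ F K
    rw [htow] at h1
    have hKC' : (finrank ℚ K : ℝ) ≤ C * d := by exact_mod_cast hKC
    have h3 : G ^ n ≤ (A * C + 1) * d := by
      calc G ^ n ≤ A * finrank ℚ K := h1
        _ ≤ A * (C * d) := mul_le_mul_of_nonneg_left hKC' hA0
        _ ≤ (A * C + 1) * d := by nlinarith
    have h4 : 1 / G ^ n ≤ ∏ i, height (x i) := by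
      rw [div_le_iff₀ (by positivity), mul_comm]
      exact h2
    refine le_trans ?_ h4
    rw [div_div]
    exact one_div_le_one_div_of_le (by positivity) h3
  · intro n K _ _ x hx i
    refine ⟨hx.1 i, fun m hm h => ?_⟩
    have h1 := hx.2 (Pi.single i (m : ℤ)) (by
      rw [Finset.prod_eq_single i]
      · rw [Pi.single_eq_same, zpow_natCast]
        have := congrArg (fun z : 𝓞 K => (z : K)) h
        simpa using this
      · intro j _ hj
        rw [Pi.single_eq_of_ne hj, zpow_zero]
      · intro hi
        exact absurd (Finset.mem_univ i) hi)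
    have h2 := congrFun h1 i
    rw [Pi.single_eq_same, Pi.zero_apply] at h2
    omega
  · intro F _ _ p f B hp T hT hN
    exact Pool.Agent.Q262.RL.mass_of_res hp T hT hN

end Pool.Agent.Results.MP_8298ec_nt.LargeSubfields
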